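import Pool.Agent.MQG.StmtsA

set_option autoImplicit false

/-!
# ABX: `Balg W` is the closed span of the slices
-/

namespace Pool.Agent.MQG.H30

open scoped InnerProductSpace InnerProduct Topology
open Complex Filter

variable {κ ι : Type}

/-- the operators whose adjoint is in `S` -/
def stS (S : Submodule ℂ (Op ι)) : Submodule ℂ (Op ι) where
  carrier := {b | star b ∈ S}
  add_mem' := fun {a b} ha hb => by
    change star (a + b) ∈ S
    rw [star_add]
    exact S.add_mem ha hb
  zero_mem' := by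
    change star (0 : Op ι) ∈ S
    rw [star_zero]
    exact S.zero_mem
  smul_mem' := fun c a ha => by
    change star (c • a) ∈ S
    rw [star_smul]
    exact S.smul_mem _ ha

theorem mem_stS {S : Submodule ℂ (Op ι)} {b : Op ι} : b ∈ stS S ↔ star b ∈ S := Iff.rfl

theorem isClosed_stS {S : Submodule ℂ (Op ι)} (hS : IsClosed (S : Set (Op ι))) :
    IsClosed (stS S : Set (Op ι)) := hS.preimage continuous_star

theorem stS_mono {S T : Submodule ℂ (Op ι)} (h : S ≤ T) : stS S ≤ stS T := fun _ hb => h hb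

theorem isClosed_CoSp (T : Op (κ × ι)) : IsClosed (CoSp T : Set (Op ι)) :=
  Submodule.isClosed_topologicalClosure _

theorem co_mem (T : Op (κ × ι)) (x z : L2 κ) : co T x z ∈ CoSp T :=
  Submodule.le_topologicalClosure _ (Submodule.subset_span ⟨x, z, rfl⟩)

theorem CoSp_le {T : Op (κ × ι)} {S : Submodule ℂ (Op ι)} (hS : IsClosed (S : Set (Op ι)))
    (h : ∀ x z, co T x z ∈ S) : CoSp T ≤ S :=
  Submodule.topologicalClosure_minimal _ (Submodule.span_le.2 (by
    rintro _ ⟨x, z, rfl⟩
    exact h x z)) hS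

theorem CoSp_le_stS (T : Op (κ × ι)) : CoSp T ≤ stS (CoSp (star T)) :=
  CoSp_le (isClosed_stS (isClosed_CoSp _)) fun x z => by
    rw [mem_stS, star_co]
    exact co_mem _ _ _

theorem stS_CoSp (T : Op (κ × ι)) : stS (CoSp T) = CoSp (star T) := by
  apply le_antisymm
  · intro b hb
    have h := CoSp_le_stS T (mem_stS.1 hb)
    rwa [mem_stS, star_star] at h
  · have h := CoSp_le_stS (star T)
    rwa [star_star] at h

/-- ABX -/
theorem abx (btw : BtwStmt) (bpr : BprStmt) : AbxStmt := by
  intro ι M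
  have hbtw := btw ι M
  obtain ⟨ha, hb⟩ := bpr ι M
  obtain ⟨P, hP⟩ : ∃ P : Submodule ℂ (Op ι), P = (Submodule.span ℂ {S : Op ι | ∃ h h' x z,
    S = co (star M.Wt) h h' * co M.W x z}).topologicalClosure := ⟨_, rfl⟩
  have hPc : IsClosed (P : Set (Op ι)) := by
    rw [hP]
    exact Submodule.isClosed_topologicalClosure _
  have hst : CoSp (star M.Wt) = CoSp (star M.W) := by
    rw [← stS_CoSp, ← stS_CoSp, hbtw]
  have hPle : P ≤ CoSp (star M.W) := by
    rw [hP, ← hst]
    refine Submodule.topologicalClosure_minimal _ (Submodule.span_le.2 ?_) (isClosed_CoSp _)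
    rintro _ ⟨h, h', x, z, rfl⟩
    exact ha h h' x z
  have hleP : CoSp (star M.W) ≤ P := by
    rw [← hst]
    refine CoSp_le hPc fun p q => ?_
    rw [hP]
    exact hb p q
  have hmul1 : ∀ x z, ∀ b ∈ CoSp (star M.W), b * co M.W x z ∈ P := by
    intro x z
    have h1 : CoSp (star M.Wt) ≤ P.comap (LinearMap.mulRight ℂ (co M.W x z)) := by
      refine CoSp_le (hPc.preimage (continuous_mul_const _)) fun h h' => ?_
      rw [Submodule.mem_comap, LinearMap.mulRight_apply, hP]
      exact Submodule.le_topologicalClosure _ (Submodule.subset_span ⟨h, h', x, z, rfl⟩)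
    intro b hb
    rw [← hst] at hb
    exact h1 hb
  have hmul2 : ∀ b ∈ CoSp (star M.W), ∀ c ∈ CoSp M.W, b * c ∈ P := by
    intro b hb
    have h1 : CoSp M.W ≤ P.comap (LinearMap.mulLeft ℂ b) := by
      refine CoSp_le (hPc.preimage (continuous_const_mul _)) fun x z => ?_
      rw [Submodule.mem_comap, LinearMap.mulLeft_apply]
      exact hmul1 x z b hb
    exact fun c hc => h1 hc
  have hPst : P ≤ stS P := by
    conv_lhs => rw [hP]
    refine Submodule.topologicalClosure_minimal _ (Submodule.span_le.2 ?_) (isClosed_stS hPc)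
    rintro _ ⟨h, h', x, z, rfl⟩
    rw [SetLike.mem_coe, mem_stS, star_mul, star_co, star_co, star_star]
    refine hmul2 _ (co_mem _ _ _) _ ?_
    rw [← hbtw]
    exact co_mem _ _ _
  have hPeq : P = CoSp (star M.W) := le_antisymm hPle hleP
  have hss : stS (CoSp (star M.W)) = CoSp M.W := by
    rw [stS_CoSp, star_star]
  have h1 : CoSp (star M.W) ≤ CoSp M.W := by
    rw [← hss, ← hPeq]
    exact hPst
  have h2 : CoSp M.W ≤ CoSp (star M.W) := by
    have := stS_mono h1
    rwa [hss, stS_CoSp] at this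
  have heq : CoSp (star M.W) = CoSp M.W := le_antisymm h1 h2
  have hmul : ∀ b ∈ CoSp M.W, ∀ c ∈ CoSp M.W, b * c ∈ CoSp M.W := by
    intro b hb c hc
    have := hmul2 b (h2 hb) c hc
    rwa [hPeq, heq] at this
  have hstar : ∀ b ∈ CoSp M.W, star b ∈ CoSp M.W := by
    intro b hb
    have := h2 hb
    rw [← stS_CoSp] at this
    exact this
  let A : NonUnitalStarSubalgebra ℂ (Op ι) :=
    { CoSp M.W with
      mul_mem' := fun {a b} ha hb => hmul a ha b hb
      star_mem' := fun {a} ha => hstar a ha }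
  have hA : ∀ b, b ∈ A ↔ b ∈ CoSp M.W := fun b => Iff.rfl
  have hBA : Balg M.W ≤ A := by
    refine NonUnitalStarSubalgebra.topologicalClosure_minimal _ (NonUnitalStarAlgebra.adjoin_le ?_)
      (isClosed_CoSp M.W)
    rintro _ ⟨x, z, rfl⟩
    exact co_mem _ _ _
  refine ⟨fun b => ⟨fun hb => hBA hb, fun hb => ?_⟩, hbtw, by rw [hst, heq], heq⟩
  have h3 : CoSp M.W ≤ (Balg M.W).toSubmodule := by
    refine CoSp_le (isClosed_Balg M.W) fun x z => ?_
    exact NonUnitalStarSubalgebra.le_topologicalClosure _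
      (NonUnitalStarAlgebra.subset_adjoin ℂ _ ⟨x, z, rfl⟩)
  exact h3 hb

end Pool.Agent.MQG.H30
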