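import Pool.Agent.Helper39_MQG.VST

set_option autoImplicit false

/-!
# LSS: `L^1(G)` contains a state
-/

namespace Pool.Agent.MQG.H30

open scoped InnerProductSpace InnerProduct Topology
open Complex Filter

/-- LSS -/
theorem lss : LssStmt := by
  intro ι _ M κ WW hW
  obtain ⟨Λ, hΛ⟩ := hW.lift ι M.W ⟨M.W_unitary, M.pentagon⟩
  obtain ⟨i⟩ := (inferInstance : Nonempty ι)
  classical
  obtain ⟨ξ, hξ⟩ : ∃ ξ : L2 ι, ‖ξ‖ = 1 :=
    ⟨lp.single 2 i 1, by rw [lp.norm_single (by norm_num), norm_one]⟩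
  refine ⟨H39.vecFun Λ ξ ξ, ?_, ?_⟩
  · exact Submodule.le_topologicalClosure _
      (Submodule.subset_span ⟨Λ, hΛ, ξ, ξ, fun a => H39.vecFun_apply Λ ξ ξ a⟩)
  · refine H59.GNS.vec_state Λ ?_ ξ hξ _ fun a => rfl
    refine (H39.dense_slices M.W M.W_unitary).mono ?_
    refine SetLike.coe_subset_coe.2 (Submodule.span_mono ?_)
    rintro _ ⟨u, y, x, rfl⟩
    exact ⟨asl WW u y, x, by rw [hΛ]⟩

end Pool.Agent.MQG.H30
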